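import Mathlib

/-!
West's stack-sorting map and the lattice points of stack-sorting simplices.
-/

namespace Pool.Agent.Lib.MP_cb3ce3_co

/-- `stackGo input stack` is the output still to be written (the head of `stack` is its top): on
reading `x` pop the entries smaller than `x`, then push `x`; at the end empty the stack. -/
def stackGo : List ℕ → List ℕ → List ℕ
  | [], st => st
  | x :: xs, st => st.takeWhile (· < x) ++ stackGo xs (x :: st.dropWhile (· < x))

/-- West's stack-sorting map `s`. -/
def stackSort (l : List ℕ) : List ℕ := stackGo l []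

/-- The word `l` as a point of `ℝⁿ`. -/
def pt (n : ℕ) (l : List ℕ) : Fin n → ℝ := fun i => (l.getD i 0 : ℝ)

/-- `L(π)`: the number of lattice points in the convex hull of `π, s π, s² π, …`. -/
noncomputable def latt (n : ℕ) (l : List ℕ) : ℕ :=
  {z : Fin n → ℤ | (fun i => (z i : ℝ)) ∈
    convexHull ℝ (Set.range fun j : ℕ => pt n (stackSort^[j] l))}.ncard

/-- `M(n)`: the maximum of `L(π)` over all permutations `π` of `1, …, n`. -/
noncomputable def maxLatt (n : ℕ) : ℕ := (List.range' 1 n).permutations.toFinset.sup (latt n)

end Pool.Agent.Lib.MP_cb3ce3_co
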