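import Pool.Agent.Lib.MP_cb3ce3_co.Vert

namespace Pool.Agent.Lib.MP_cb3ce3_co

open Finset

/-- The analytic part of the construction. -/
theorem chain_point {n k K j : ℕ} (hk : 1 ≤ k) (hkK : k < K) (hK : K + 1 ≤ n) (hj : 1 ≤ j)
    (a : ℕ → ℕ) (E : ℕ → ℤ) (S : ℕ → ℝ) (hS : ∀ p, S p = ∑ m ∈ Ico p (n - 1), (a m : ℝ) / m)
    (hE0 : ∀ i, i + 1 < k → E i = 0) (hE1 : E (n - 1) = 0)
    (hE2 : ∀ p, K ≤ p → p + 1 < n → E p = ⌊S (p + 1) / ((j : ℝ) / (n - 1 : ℕ))⌋₊)
    (hE3 : ∑ i ∈ range n, E i = 0)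
    (hb : S K + 2 * j / k + ((K : ℝ) - k) / k ≤ 1) :
    ∃ (μ : ℕ → ℝ) (z : ℕ → ℤ), μ 0 = 1 ∧ μ n = 0 ∧ (∀ p < n, μ (p + 1) ≤ μ p) ∧
      (∀ i < n, (z i : ℝ) = (i + 1 : ℝ) + (i + 1) * μ (i + 1) - i * μ i - μ (n - 1) * E i) ∧
      ∀ m ∈ Ico K (n - 1), z m = m + 1 - a m := by
  set lam : ℝ := (j : ℝ) / (n - 1 : ℕ) with hlam
  have hn1 : (0 : ℝ) < (n - 1 : ℕ) := by exact_mod_cast (by omega : 0 < n - 1)
  have hj' : (0 : ℝ) < j := by exact_mod_cast hj
  have hk' : (0 : ℝ) < k := by exact_mod_cast hk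
  have hl0 : 0 < lam := div_pos hj' hn1
  have hlj : lam * (n - 1 : ℕ) = j := div_mul_cancel₀ _ hn1.ne'
  set C : ℕ → ℤ := fun p => ∑ i ∈ Ico p n, E i with hC
  have hCs : ∀ p < n, C p = E p + C (p + 1) := fun p hp => sum_eq_sum_Ico_succ_bot hp _
  have hCn : C n = 0 := by simp [hC]
  have hC0 : ∀ p < k, C p = 0 := by
    intro p
    induction p with
    | zero => intro _; simpa [hC] using hE3
    | succ p ih =>
      intro hp
      have := hCs p (by omega)
      rw [ih (by omega), hE0 p hp] at this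
      omega
  set τ : ℕ → ℝ := fun p => 1 - ((p : ℝ) - k) / k with hτ
  set T : ℕ → ℤ := fun p => if p < k then p else if p < K then ⌈p * τ (p + 1) + lam * C p⌉
    else if p < n then j + ∑ m ∈ Ico p (n - 1), (a m : ℤ) else 0 with hT
  set t : ℕ → ℝ := fun p => T p - lam * C p with ht
  set μ : ℕ → ℝ := fun p => if p < k then 1 else t p / p with hμ
  have hμt : ∀ p : ℕ, (p : ℝ) * μ p = t p := fun p => by
    by_cases hp : p < k
    · simp [hμ, ht, hT, hp, hC0 p hp]
    · have : (p : ℝ) ≠ 0 := by exact_mod_cast (by omega : p ≠ 0)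
      simp only [hμ, if_neg hp]; field_simp
  have hTs : ∀ p, K ≤ p → p + 1 < n → T p = T (p + 1) + a p := fun p h1 h2 => by
    simp only [hT, if_neg (by omega : ¬ p < k), if_neg (by omega : ¬ p < K),
      if_pos (by omega : p < n), if_neg (by omega : ¬ p + 1 < k), if_neg (by omega : ¬ p + 1 < K),
      if_pos h2]
    rw [sum_eq_sum_Ico_succ_bot (by omega : p < n - 1)]; ring
  have hts : ∀ p, K ≤ p → p + 1 < n → t p = t (p + 1) + a p - lam * E p := fun p h1 h2 => by
    simp only [ht, hTs p h1 h2, hCs p (by omega)]; push_cast; ring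
  have hSs : ∀ p, p + 1 < n → S p = a p / p + S (p + 1) := fun p h2 => by
    rw [hS, hS, sum_eq_sum_Ico_succ_bot (by omega : p < n - 1)]
  have hS0 : ∀ p, 0 ≤ S p := fun p => by rw [hS]; positivity
  have hfl : ∀ p, K ≤ p → p + 1 < n → lam * E p ≤ S (p + 1) ∧ S (p + 1) ≤ lam * E p + lam :=
    fun p h1 h2 => by
      have h3 := Nat.floor_le (div_nonneg (hS0 (p + 1)) hl0.le)
      have h4 := (Nat.lt_floor_add_one (S (p + 1) / lam)).le
      rw [le_div_iff₀ hl0] at h3
      rw [div_le_iff₀ hl0] at h4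
      rw [hE2 p h1 h2]; push_cast
      constructor <;> linarith
  have htn : t (n - 1) = j := by
    have h1 : C (n - 1) = 0 := by
      rw [hCs _ (by omega), hE1, show n - 1 + 1 = n by omega, hCn]; rfl
    simp [ht, hT, h1, if_neg (by omega : ¬ n - 1 < k), if_neg (by omega : ¬ n - 1 < K),
      (by omega : n - 1 < n)]
  have hD : ∀ d p, p + d = n - 1 → K ≤ p → 0 ≤ t p - p * S p ∧ t p - p * S p ≤ j + d * lam := by
    intro d
    induction d with
    | zero =>
      intro p hp _
      have h1 : p = n - 1 := by omega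
      have h2 : S (n - 1) = 0 := by simp [hS]
      rw [h1, htn, h2]; simp
    | succ d ih =>
      intro p hp hKp
      obtain ⟨h1, h2⟩ := ih (p + 1) (by omega) (by omega)
      obtain ⟨h3, h4⟩ := hfl p hKp (by omega)
      have hp0 : (p : ℝ) ≠ 0 := by exact_mod_cast (by omega : p ≠ 0)
      have h5 : (p : ℝ) * S p = a p + p * S (p + 1) := by rw [hSs p (by omega)]; field_simp
      rw [hts p hKp (by omega), h5]
      push_cast at h1 h2 ⊢
      constructor <;> linarith
  have hμn : μ n = 0 := by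
    simp [hμ, ht, hT, hCn, if_neg (by omega : ¬ n < k), if_neg (by omega : ¬ n < K)]
  have hμl : μ (n - 1) = lam := by
    simp only [hμ, if_neg (by omega : ¬ n - 1 < k), htn, hlam]
  have hmid : ∀ p, k ≤ p → p < K → τ (p + 1) ≤ μ p ∧ μ p ≤ τ p := fun p h1 h2 => by
    have hp0 : (0 : ℝ) < p := by exact_mod_cast (by omega : 0 < p)
    have h3 := Int.le_ceil (p * τ (p + 1) + lam * C p)
    have h4 := (Int.ceil_lt_add_one (p * τ (p + 1) + lam * C p)).le
    have h5 : T p = ⌈p * τ (p + 1) + lam * C p⌉ := by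
      simp only [hT, if_neg (by omega : ¬ p < k), if_pos h2]
    have h6 : τ p = τ (p + 1) + 1 / k := by simp only [hτ]; push_cast; ring
    have h7 : (1 : ℝ) ≤ p * (1 / k) := by
      rw [mul_one_div, le_div_iff₀ hk', one_mul]; exact_mod_cast h1
    simp only [hμ, if_neg (by omega : ¬ p < k), ht, h5]
    rw [le_div_iff₀ hp0, div_le_iff₀ hp0, h6]
    constructor <;> nlinarith
  have hKτ : μ K ≤ τ K := by
    obtain ⟨h1, h2⟩ := hD (n - 1 - K) K (by omega) le_rfl
    have hK0 : (0 : ℝ) < K := by exact_mod_cast (by omega : 0 < K)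
    have h3 : ((n - 1 - K : ℕ) : ℝ) * lam ≤ j := by
      rw [← hlj, mul_comm]
      exact mul_le_mul_of_nonneg_left (by exact_mod_cast Nat.sub_le _ _) hl0.le
    have h4 : 2 * (j : ℝ) ≤ 2 * j / k * K := by
      rw [div_mul_eq_mul_div, le_div_iff₀ hk']
      exact mul_le_mul_of_nonneg_left (by exact_mod_cast hkK.le) (by positivity)
    have h5 : μ K ≤ S K + 2 * j / k := by
      simp only [hμ, if_neg (by omega : ¬ K < k)]
      rw [div_le_iff₀ hK0]; linarith
    simp only [hτ]; linarith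
  refine ⟨μ, fun i => i + 1 + T (i + 1) - T i, by simp [hμ, (by omega : 0 < k)], hμn, ?_, ?_, ?_⟩
  · intro p hp
    have hup : ∀ q, k ≤ q → q ≤ K → μ q ≤ τ q := fun q h1 h2 => by
      rcases h2.lt_or_eq with h | h
      · exact (hmid q h1 h).2
      · rw [h]; exact hKτ
    by_cases h1 : p + 1 < k
    · simp [hμ, h1, (by omega : p < k)]
    by_cases h2 : p < k
    · have h3 : p + 1 = k := by omega
      have := hup k le_rfl hkK.le
      simp only [hτ, sub_self, zero_div, sub_zero] at this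
      rw [h3]; simpa [hμ, h2] using this
    by_cases h3 : p < K
    · exact (hup (p + 1) (by omega) h3).trans (hmid p (by omega) h3).1
    by_cases h4 : p + 1 < n
    · have hp0 : (0 : ℝ) < p := by exact_mod_cast (by omega : 0 < p)
      have h5 := hts p (by omega) h4
      have h6 := (hD (n - 1 - (p + 1)) (p + 1) (by omega) (by omega)).1
      have h7 := (hfl p (by omega) h4).1
      rw [← hμt, ← hμt] at h5
      rw [← hμt] at h6
      push_cast at h5 h6
      have h8 : S (p + 1) ≤ μ (p + 1) := le_of_mul_le_mul_left (a := (p + 1 : ℝ)) (by linarith)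
        (by linarith)
      have h9 : (0 : ℝ) ≤ a p := by positivity
      exact le_of_mul_le_mul_left (a := (p : ℝ)) (by linarith) hp0
    · rw [show p + 1 = n by omega, show p = n - 1 by omega, hμn, hμl]; exact hl0.le
  · intro i hi
    have h1 := hμt (i + 1)
    have h2 := hμt i
    rw [hμl]
    simp only [ht, hCs i hi] at h1 h2
    push_cast at h1 h2 ⊢
    linarith
  · intro m hm
    have := mem_Ico.1 hm
    simp only [hTs m this.1 (by omega)]; ring

theorem construct {n k r j : ℕ} (hk : 1 ≤ k) (hr : 1 ≤ r) (hn : k + r + 1 ≤ n)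
    (hj : n - 1 ≤ r * j) (a : ℕ → ℕ)
    (hb : ∑ m ∈ Ico (k + r) (n - 1), (a m : ℝ) / m + 2 * j / k + (r : ℝ) / k ≤ 1) :
    ∃ R ∈ powersetCard (n - 1 - (k + r)) (Icc (k + 1) (n - 1)), ∃ z ∈ Lat n (piL n k R),
      ∀ m : Fin n, (m : ℕ) ∈ Ico (k + r) (n - 1) → z m = (m : ℕ) + 1 - a m := by
  set K := k + r with hKdef
  set S : ℕ → ℝ := fun p => ∑ m ∈ Ico p (n - 1), (a m : ℝ) / m with hS
  have hj1 : 1 ≤ j := by
    rcases Nat.eq_zero_or_pos j with h | h
    · rw [h] at hj; omega
    · exact h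
  set lam : ℝ := (j : ℝ) / (n - 1 : ℕ) with hlam
  have hn1 : (0 : ℝ) < (n - 1 : ℕ) := by exact_mod_cast (by omega : 0 < n - 1)
  have hl0 : 0 < lam := div_pos (by exact_mod_cast hj1) hn1
  set e : ℕ → ℕ := fun p => ⌊S p / lam⌋₊ with he
  have hSa : ∀ p q, p ≤ q → S q ≤ S p := fun p q h =>
    sum_le_sum_of_subset_of_nonneg (Ico_subset_Ico_left h) fun _ _ _ => by positivity
  have hea : ∀ p q, p ≤ q → e q ≤ e p := fun p q h =>
    Nat.floor_le_floor (div_le_div_of_nonneg_right (hSa p q h) hl0.le)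
  have heK : e K ≤ r := by
    have h1 : S K ≤ 1 := by
      have : (0 : ℝ) ≤ 2 * j / k + (r : ℝ) / k := by positivity
      simp only [hS]; linarith
    have h2 : S K / lam ≤ r := by
      rw [div_le_iff₀ hl0, hlam, mul_div_assoc', le_div_iff₀ hn1]
      have : ((n - 1 : ℕ) : ℝ) ≤ r * j := by exact_mod_cast hj
      nlinarith
    exact Nat.floor_le_of_le h2
  set B := (List.range' K (n - 1 - K)).map fun p => p + 1 - e p with hB
  have hBs : B.Pairwise (· < ·) := by
    rw [hB, List.pairwise_map]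
    refine List.Pairwise.imp_of_mem (fun {p q} hp hq hpq => ?_) (List.pairwise_lt_range' 1)
    have := List.mem_range'_1.1 hp
    have := hea p q hpq.le
    have := hea K p (by omega)
    omega
  have hBn : B.Nodup := hBs.imp ne_of_lt
  have hBl : B.length = n - 1 - K := by simp [hB]
  have hR : B.toFinset ⊆ Icc (k + 1) (n - 1) := by
    intro x hx
    obtain ⟨p, hp, rfl⟩ := List.mem_map.1 (List.mem_toFinset.1 hx)
    have := List.mem_range'_1.1 hp
    have := hea K p (by omega)
    exact mem_Icc.2 (by omega)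
  have hRc : B.toFinset.card = n - 1 - K := by rw [List.toFinset_card_of_nodup hBn, hBl]
  have hsort : B.toFinset.sort (· ≤ ·) = B := (List.toFinset_sort _ hBn).2 (hBs.imp le_of_lt)
  refine ⟨B.toFinset, mem_powersetCard.2 ⟨hR, hRc⟩, ?_⟩
  set l := piL n k B.toFinset with hl
  have hp := piL_perm hk (by omega) hR
  have hDl : ((Icc (k + 1) (n - 1) \ B.toFinset).sort (· ≥ ·)).length = r := by
    rw [length_sort, card_sdiff_of_subset hR, hRc, Nat.card_Icc]; omega
  set D := (Icc (k + 1) (n - 1) \ B.toFinset).sort (· ≥ ·) with hD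
  have hl2 : l = List.range' 2 (k - 1) ++ (D ++ (B ++ [n, 1])) := by
    rw [hl, piL, hsort]; simp [hD]
  have g1 : ∀ i, i + 1 < k → l.getD i 0 = i + 2 := fun i hi => by
    rw [hl2, List.getD_append _ _ _ _ (by simp; omega), List.getD_eq_getElem _ _ (by simp; omega)]
    simp; omega
  have g2 : ∀ i, K ≤ i + 1 → l.getD i 0 = (B ++ [n, 1]).getD (i + 1 - K) 0 := fun i hi => by
    rw [hl2, List.getD_append_right _ _ _ _ (by simp; omega),
      List.getD_append_right _ _ _ _ (by simp; omega), hDl, List.length_range']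
    congr 1; omega
  have g3 : l.getD (n - 1) 0 = 1 := by
    rw [g2 _ (by omega), List.getD_append_right _ _ _ _ (by omega), hBl,
      show n - 1 + 1 - K - (n - 1 - K) = 1 by omega]; rfl
  have g4 : ∀ p, K ≤ p → p + 1 < n → l.getD p 0 + e (p + 1) = p + 2 := fun p h1 h2 => by
    rw [g2 _ (by omega)]
    by_cases h3 : p + 2 = n
    · rw [List.getD_append_right _ _ _ _ (by omega), hBl,
        show p + 1 - K - (n - 1 - K) = 0 by omega, show p + 1 = n - 1 by omega]
      simp [he, hS, h3]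
    · rw [List.getD_append _ _ _ _ (by omega), List.getD_eq_getElem _ _ (by omega)]
      have := hea K (p + 1) (by omega)
      simp only [hB, List.getElem_map, List.getElem_range', Nat.one_mul,
        show K + (p + 1 - K) = p + 1 by omega]
      omega
  obtain ⟨μ, z, h0, h1, h2, h3, h4⟩ := chain_point (n := n) (k := k) (K := K) (j := j) hk
    (by omega) (by omega) hj1 a (fun i => ((uL n (n - 1)).getD i 0 : ℤ) - l.getD i 0) S
    (fun _ => rfl)
    (fun i hi => by rw [uL_get (by omega), if_pos (by omega), g1 i hi]; simp)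
    (by rw [uL_get (by omega), if_neg (by omega), if_pos rfl, g3]; simp)
    (fun p h1 h2 => by
      have := g4 p h1 h2
      rw [uL_get (by omega), if_pos (by omega), ← this]; push_cast; simp [he, hlam])
    (by
      have e1 := sum_getD l
      have e2 := sum_getD (uL n (n - 1))
      rw [hp.length_eq, hp.sum_eq, List.length_range'] at e1
      rw [(uL_perm (by omega)).length_eq, (uL_perm (by omega)).sum_eq, List.length_range'] at e2
      rw [sum_sub_distrib, ← Nat.cast_sum, ← Nat.cast_sum, e1, e2, sub_self])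
    (by simp only [hKdef]; push_cast; simpa using hb)
  refine ⟨fun i => z i, ?_, fun m hm => h4 m hm⟩
  have := hull_mem (by omega) (sort_piL hk (by omega) hR) μ h0 h1 h2
  simp only [Lat, Set.mem_ofPred_eq]
  convert this using 2 with i
  rw [h3 i i.2]; push_cast; rfl

end Pool.Agent.Lib.MP_cb3ce3_co
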