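import Pool.Agent.Lib.MP_cb3ce3_co.Tilt

namespace Pool.Agent.Lib.MP_cb3ce3_co

open Finset Filter Topology

theorem G_mono {s : ℝ} (hs : 0 < s) : MonotoneOn (fun y => G (s / y)) (Set.Ici 0) := by
  intro x hx y hy hxy
  rcases (show (0 : ℝ) ≤ x from hx).eq_or_lt with h | h
  · simp only [← h, div_zero]
    exact le_trans (by simp [G]) (G_nonneg (div_nonneg hs.le hy))
  · exact G_anti (div_pos hs (h.trans_le hxy)) (div_le_div_of_nonneg_left hs.le h hxy)

/-- The integral part of the rate function. -/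
noncomputable def I (s : ℝ) : ℝ := ∫ y in (0 : ℝ)..1, G (s / y)

theorem I_nonneg {s : ℝ} (hs : 0 < s) : 0 ≤ I s :=
  intervalIntegral.integral_nonneg zero_le_one fun _ hy => G_nonneg (div_nonneg hs.le hy.1)

theorem riemann {s : ℝ} (hs : 0 < s) {n : ℕ} (hn : 0 < n) :
    ∑ m ∈ range n, G (s * n / m) ≤ n * I s ∧ n * I s ≤ ∑ m ∈ range n, G (s * n / (m + 1 : ℕ)) := by
  have hn' : (0 : ℝ) < n := by exact_mod_cast hn
  have h1 : MonotoneOn (fun y => G (s * n / y)) (Set.Icc (0 : ℝ) (0 + n)) :=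
    (G_mono (mul_pos hs hn')).mono fun _ hy => hy.1
  have h2 : ∫ x in (0 : ℝ)..0 + n, G (s * n / x) = n * I s := by
    have := intervalIntegral.integral_comp_div (a := 0) (b := n) (fun y => G (s / y)) hn'.ne'
    rw [zero_div, div_self hn'.ne', smul_eq_mul] at this
    rw [I, ← this, zero_add]
    simp only [div_div_eq_mul_div]
  have h3 := h1.sum_le_integral
  have h4 := h1.integral_le_sum
  rw [h2] at h3 h4
  simp only [zero_add] at h3 h4
  exact ⟨h3, h4⟩

theorem upper {s : ℝ} (hs : 0 < s) {n : ℕ} (hn : 0 < n) :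
    (maxLatt n : ℝ) ≤ Real.exp (n * (s + I s)) := by
  have hn' : (0 : ℝ) < n := by exact_mod_cast hn
  obtain ⟨l, hl, he⟩ := exists_mem_eq_sup (List.range' 1 n).permutations.toFinset
    ⟨_, List.mem_toFinset.2 (List.mem_permutations.2 (List.Perm.refl _))⟩ (latt n)
  rw [maxLatt, he, latt_eq]
  refine ((lat_bound (List.mem_permutations.1 (List.mem_toFinset.1 hl))).2 (s * n)
    (by positivity)).trans ?_
  rw [prod_congr rfl fun m hm => (exp_G (mul_pos (mul_pos hs hn')
    (inv_pos.2 (by exact_mod_cast (mem_Ico.1 hm).1)))).symm, ← Real.exp_sum, ← Real.exp_add]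
  refine Real.exp_le_exp.2 ?_
  have h1 := (riemann hs hn).1
  have h2 : ∑ m ∈ Ico 1 n, G (s * n * (m : ℝ)⁻¹) ≤ ∑ m ∈ range n, G (s * n / m) :=
    sum_le_sum_of_subset_of_nonneg (fun m hm => mem_range.2 (mem_Ico.1 hm).2)
      fun m _ _ => G_nonneg (by positivity)
  linarith

/-- The growth exponent. -/
noncomputable def kappa : ℝ := ⨅ s : Set.Ioi (0 : ℝ), ((s : ℝ) + I s)

theorem kappa_le {s : ℝ} (hs : 0 < s) : kappa ≤ s + I s :=
  ciInf_le (f := fun s : Set.Ioi (0 : ℝ) => (s : ℝ) + I s)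
    ⟨0, by rintro _ ⟨t, rfl⟩; exact add_nonneg (le_of_lt t.2) (I_nonneg t.2)⟩ ⟨s, hs⟩

theorem kappa_nonneg : 0 ≤ kappa :=
  le_ciInf fun t => add_nonneg (le_of_lt t.2) (I_nonneg t.2)

theorem log_le_kappa {n : ℕ} (hn : 0 < n) : Real.log (maxLatt n) / n ≤ kappa := by
  have hn' : (0 : ℝ) < n := by exact_mod_cast hn
  refine le_ciInf fun s => ?_
  rw [div_le_iff₀' hn']
  rcases Nat.eq_zero_or_pos (maxLatt n) with h | h
  · rw [h, Nat.cast_zero, Real.log_zero]
    exact mul_nonneg hn'.le (add_nonneg (le_of_lt s.2) (I_nonneg s.2))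
  · exact (Real.log_le_iff_le_exp (by exact_mod_cast h)).2 (upper s.2 hn)

theorem missing {s0 s : ℝ} (h0 : 0 < s0) (hs : s0 ≤ s) {n K : ℕ} (hK : 1 ≤ K) (hn : K + 1 ≤ n) :
    n * kappa ≤ s * n + ∑ m : Ico K (n - 1), G (s * (n / (m : ℕ))) + (K + 1) * G s0 := by
  have hn' : (0 : ℝ) < n := by exact_mod_cast (by omega : 0 < n)
  have h1 := (riemann (h0.trans_le hs) (by omega : 0 < n)).2
  have h2 := mul_le_mul_of_nonneg_left (kappa_le (h0.trans_le hs)) hn'.le
  rw [sum_coe_sort (Ico K (n - 1)) fun m => G (s * (n / (m : ℕ)))]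
  rw [range_eq_Ico, sum_Ico_add' (fun m : ℕ => G (s * n / m)) 0 n 1, zero_add,
    ← sum_sdiff (show Ico K (n - 1) ⊆ Ico 1 (n + 1) from Ico_subset_Ico hK (by omega))] at h1
  have h3 : ∑ m ∈ Ico 1 (n + 1) \ Ico K (n - 1), G (s * n / m) ≤ (K + 1) * G s0 := by
    refine (sum_le_card_nsmul _ _ (G s0) fun m hm => G_anti h0 ?_).trans ?_
    · have := mem_Ico.1 (mem_sdiff.1 hm).1
      have h4 : (0 : ℝ) < m := by exact_mod_cast this.1
      have h5 : (m : ℝ) ≤ n := by exact_mod_cast (by omega : m ≤ n)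
      rw [le_div_iff₀ h4]; nlinarith
    · rw [card_sdiff_of_subset (Ico_subset_Ico hK (by omega)), Nat.card_Ico, Nat.card_Ico,
        show n + 1 - 1 - (n - 1 - K) = K + 1 by omega, nsmul_eq_mul]
      push_cast; rfl
  simp only [← mul_div_assoc]
  linarith

theorem lower_at {η h : ℝ} {L r n : ℕ} (hη : 0 < η) (hη1 : η ≤ 1 / 8) (hL : 2 ≤ L) (hr : 1 ≤ r)
    (hrL : 2 * (L : ℝ) / r ≤ η) (hh : 0 < h) (hhη : h ≤ η) (hd1 : h * L ≤ 1)
    (hd2 : 4 * (h * L) ≤ (1 - Real.exp (-η)) ^ 2)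
    (hd3 : 4 * (h * L) ^ 2 / (1 - Real.exp (-η)) ^ 2 ≤ h * η / 2)
    (n1 : 2 * r + 4 ≤ n) (n2 : (2 + r) * L / η ≤ n) (n3 : 6 / (h * η) ≤ n) :
    (1 - 4 * η) * (n * kappa - (n / L + r + 2) * G η) - 2 * η * n - 1 - r * Real.log n ≤
      Real.log (maxLatt n) := by
  have hn' : (0 : ℝ) < n := by exact_mod_cast (by omega : 0 < n)
  have hL' : (0 : ℝ) < L := by exact_mod_cast (by omega : 0 < L)
  have hr' : (0 : ℝ) < r := by exact_mod_cast hr
  set k := n / L + 1 with hk
  set j := n / r + 1 with hj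
  have k1 : k + r + 1 ≤ n := by have := Nat.div_le_div_left (a := n) hL (by norm_num); omega
  have k2 : (n : ℝ) ≤ L * k := by exact_mod_cast (Nat.lt_mul_div_succ n (by omega : 0 < L)).le
  have k3 : (k : ℝ) ≤ n / L + 1 := by
    rw [hk]; push_cast; linarith [Nat.cast_div_le (α := ℝ) (m := n) (n := L)]
  have k0 : (0 : ℝ) < k := by rw [hk]; positivity
  have k4 : 1 ≤ k := Nat.le_add_left _ _
  have j2 : n - 1 ≤ r * j := by have := Nat.lt_mul_div_succ n (by omega : 0 < r); rw [← hj] at this; omega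
  have j3 : (j : ℝ) ≤ n / r + 1 := by
    rw [hj]; push_cast; linarith [Nat.cast_div_le (α := ℝ) (m := n) (n := r)]
  have b1 : 2 * (j : ℝ) / k + (r : ℝ) / k ≤ 2 * η := by
    rw [← add_div, div_le_iff₀ k0]
    rw [div_le_iff₀ hη] at n2
    rw [div_le_iff₀ hr'] at hrL
    have e1 : 2 * (n / r : ℝ) ≤ η * k := by
      rw [← mul_div_assoc, div_le_iff₀ hr']; nlinarith
    have e2 : (2 + r : ℝ) ≤ η * k := le_of_mul_le_mul_right (a := (L : ℝ)) (by nlinarith) hL'
    linarith
  clear_value k j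
  obtain ⟨s, T, hs, hmin⟩ := many (ι := Ico (k + r) (n - 1)) (fun m => (n : ℝ) / (m : ℕ))
    (s0 := η) (h := h) (x0 := (1 - 3 * η) * n) (y := η * n) (Λ := L) hη hh
    (mul_pos (by linarith) hn') (fun m => by
      have := mem_Ico.1 m.2
      have h4 : (0 : ℝ) < (m : ℕ) := by exact_mod_cast (by omega : 0 < (m : ℕ))
      have h5 : ((m : ℕ) : ℝ) ≤ n := by exact_mod_cast (by omega : (m : ℕ) ≤ n)
      have h6 : (k : ℝ) ≤ (m : ℕ) := by exact_mod_cast (by omega : k ≤ (m : ℕ))
      rw [le_div_iff₀ h4, div_le_iff₀ h4]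
      constructor <;> nlinarith) hd1 hd2 (by
      have h4 : (Fintype.card (Ico (k + r) (n - 1)) : ℝ) ≤ n := by
        rw [Fintype.card_coe, Nat.card_Ico]; exact_mod_cast (by omega : n - 1 - (k + r) ≤ n)
      have h5 := mul_le_mul h4 hd3 (by positivity) hn'.le
      rw [div_le_iff₀ (by positivity)] at n3
      linarith)
  set A := (Fintype.piFinset fun _ : Ico (k + r) (n - 1) => range T).filter
    fun a => ∑ i : Ico (k + r) (n - 1), (a i : ℝ) * ((n : ℝ) / (i : ℕ)) ≤ (1 - 3 * η) * n + η * n with hA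
  have hc := count_le (by omega) hr k1 j2 A fun a ha => by
    have h1 := (mem_filter.1 ha).2
    have h2 : ∑ i : Ico (k + r) (n - 1), (a i : ℝ) * ((n : ℝ) / (i : ℕ)) =
        (∑ i : Ico (k + r) (n - 1), (a i : ℝ) / (i : ℕ)) * n := by
      rw [sum_mul]; exact sum_congr rfl fun i _ => by ring
    rw [h2, ← add_mul] at h1
    linarith [le_of_mul_le_mul_right h1 hn']
  have hlog : Real.log A.card ≤ Real.log (maxLatt n) + r * Real.log n := by
    rcases Nat.eq_zero_or_pos A.card with h0 | h0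
    · rw [h0, Nat.cast_zero, Real.log_zero]
      have := Real.log_natCast_nonneg n
      have := Real.log_natCast_nonneg (maxLatt n)
      positivity
    · have h1 : maxLatt n ≠ 0 := fun h1 => by rw [h1] at hc; omega
      rw [← Real.log_pow, ← Real.log_mul (by exact_mod_cast h1) (by positivity)]
      exact Real.log_le_log (by exact_mod_cast h0) (by exact_mod_cast hc)
  have hm := missing hη hs (by omega : 1 ≤ k + r) k1
  set Φ := ∑ m : Ico (k + r) (n - 1), G (s * (n / (m : ℕ))) with hΦ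
  have hΦ0 : 0 ≤ Φ := sum_nonneg fun m _ => G_nonneg (by have := hη.trans_le hs; positivity)
  have hG := G_nonneg hη.le
  have h1 : n * kappa - (n / L + r + 2) * G η ≤ s * n + Φ := by
    push_cast at hm
    nlinarith
  have h2 := mul_le_mul_of_nonneg_left h1 (show 0 ≤ 1 - 4 * η by linarith)
  have h3 : 0 ≤ s * n * η := by have := hη.trans_le hs; positivity
  have h4 : 0 ≤ η * Φ := by positivity
  have h5 : 0 ≤ η * n := by positivity
  have h6 : (η + h) * ((1 - 3 * η) * n) ≤ 2 * η * n := by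
    have : (η + h) * (1 - 3 * η) ≤ 2 * η := by nlinarith
    nlinarith
  rcases min_le_iff.1 hmin with h7 | h7 <;> nlinarith

theorem rate : Tendsto (fun n : ℕ => Real.log (maxLatt n) / n) atTop (𝓝 kappa) := by
  refine tendsto_order.2 ⟨fun c hc => ?_, fun c hc => ?_⟩
  swap
  · filter_upwards [eventually_gt_atTop 0] with n hn using (log_le_kappa hn).trans_lt hc
  have hκ := kappa_nonneg
  set η := min (1 / 8) ((kappa - c) / (4 * kappa + 4)) with hηd
  have hη : 0 < η := lt_min (by norm_num) (div_pos (by linarith) (by linarith))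
  have hη1 : η ≤ 1 / 8 := min_le_left _ _
  have hη2 : η * (4 * kappa + 4) ≤ kappa - c := (le_div_iff₀ (by linarith)).1 (min_le_right _ _)
  have hG := G_nonneg hη.le
  obtain ⟨L, hL⟩ := exists_nat_ge (G η / η + 2)
  have hL0 : (2 : ℝ) ≤ L := le_trans (le_add_of_nonneg_left (by positivity)) hL
  have hL1 : G η / L ≤ η := by
    rw [div_le_iff₀ (by linarith)]
    have := (div_le_iff₀ hη).1 (show G η / η ≤ L by linarith)
    linarith
  obtain ⟨r, hr⟩ := exists_nat_ge (2 * L / η + 1)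
  have hr0 : (1 : ℝ) ≤ r := le_trans (le_add_of_nonneg_left (by positivity)) hr
  have hr1 : 2 * (L : ℝ) / r ≤ η := by
    rw [div_le_iff₀ (by linarith)]
    have := (div_le_iff₀ hη).1 (show 2 * L / η ≤ r by linarith)
    linarith
  set p := (1 - Real.exp (-η)) ^ 2 with hp
  have hp0 : 0 < p := pow_pos (one_sub_pos hη) 2
  have hp1 : p ≤ 1 := pow_le_one₀ (one_sub_pos hη).le (by linarith [Real.exp_pos (-η)])
  set h := η * p / (8 * L ^ 2) with hhd
  have hh : 0 < h := by positivity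
  have hh1 : h * (8 * L ^ 2) = η * p := div_mul_cancel₀ _ (by positivity)
  have hh2 : h * L ≤ h * L ^ 2 := by nlinarith [mul_pos hh (show (0 : ℝ) < L by linarith)]
  have hh3 : η * p ≤ η := by nlinarith
  have hh4 : η * p ≤ p := by nlinarith
  have hlim : Tendsto (fun n : ℕ => (1 - 4 * η) * (kappa - (1 / L + (r + 2) / n) * G η) - 2 * η -
      1 / n - r * (Real.log n / n)) atTop
      (𝓝 ((1 - 4 * η) * (kappa - (1 / L + 0) * G η) - 2 * η - 0 - r * 0)) := by
    have t1 : Tendsto (fun n : ℕ => Real.log n / n) atTop (𝓝 0) := by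
      simpa [Function.comp_def] using (Real.tendsto_pow_log_div_mul_add_atTop 1 0 1 one_ne_zero).comp
        tendsto_natCast_atTop_atTop
    exact ((((((tendsto_const_div_atTop_nhds_zero_nat _).const_add _).mul_const _).const_sub
      _).const_mul _).sub_const _ |>.sub (tendsto_const_div_atTop_nhds_zero_nat _)).sub
      (t1.const_mul _)
  have hlt : c < (1 - 4 * η) * (kappa - (1 / L + 0) * G η) - 2 * η - 0 - r * 0 := by
    have e : (1 / L + 0) * G η = G η / L := by ring
    have : 0 ≤ η * (G η / L) := by positivity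
    rw [e]; nlinarith
  filter_upwards [hlim.eventually (lt_mem_nhds hlt), eventually_ge_atTop (2 * r + 4),
    tendsto_natCast_atTop_atTop.eventually_ge_atTop ((2 + r) * L / η : ℝ),
    tendsto_natCast_atTop_atTop.eventually_ge_atTop (6 / (h * η) : ℝ)] with n h1 n1 n2 n3
  have hn' : (0 : ℝ) < n := by exact_mod_cast (by omega : 0 < n)
  have := lower_at hη hη1 (by exact_mod_cast hL0) (by exact_mod_cast hr0) hr1 hh (by nlinarith)
    (by nlinarith) (by nlinarith) (by rw [div_le_iff₀ hp0]; nlinarith) n1 n2 n3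
  refine h1.trans_le ?_
  rw [le_div_iff₀ hn']
  refine le_of_eq_of_le ?_ this
  field_simp
  ring

end Pool.Agent.Lib.MP_cb3ce3_co
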