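import Pool.Agent.Lib.MP_cb3ce3_co.Defs

namespace Pool.Agent.Lib.MP_cb3ce3_co

open List

theorem go_perm : ∀ (xs st : List ℕ), stackGo xs st ~ xs ++ st
  | [], st => by simp [stackGo]
  | x :: xs, st => by
    rw [stackGo]
    have h := go_perm xs (x :: st.dropWhile (· < x))
    have h2 : st.takeWhile (· < x) ++ st.dropWhile (· < x) = st := takeWhile_append_dropWhile
    calc _ ~ st.takeWhile (· < x) ++ (xs ++ x :: st.dropWhile (· < x)) := h.append_left _
      _ ~ xs ++ (st.takeWhile (· < x) ++ x :: st.dropWhile (· < x)) := perm_append_comm_assoc _ _ _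
      _ ~ xs ++ x :: (st.takeWhile (· < x) ++ st.dropWhile (· < x)) := perm_middle.append_left _
      _ ~ x :: xs ++ st := by rw [h2]; exact perm_middle

theorem sort_perm (l : List ℕ) : stackSort l ~ l := by simpa [stackSort] using go_perm l []

theorem go_split (x : ℕ) (B : List ℕ) : ∀ (A st : List ℕ), (∀ a ∈ A, a < x) → (∀ a ∈ st, a < x) →
    stackGo (A ++ x :: B) st = stackGo A st ++ stackGo B [x]
  | [], st, _, hs => by
    have h1 : st.takeWhile (· < x) = st := takeWhile_eq_self_iff.2 (by simpa using hs)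
    have h2 : st.dropWhile (· < x) = [] := dropWhile_eq_nil_iff.2 (by simpa using hs)
    simp [stackGo, h1, h2]
  | a :: A, st, hA, hs => by
    rw [cons_append, stackGo, stackGo, go_split x B A _ (fun b hb => hA b (mem_cons_of_mem _ hb)),
      append_assoc]
    intro b hb
    rcases mem_cons.1 hb with rfl | hb
    · exact hA _ mem_cons_self
    · exact hs b ((dropWhile_sublist _).subset hb)

theorem go_bottom (x : ℕ) : ∀ (B st : List ℕ), (∀ b ∈ B, b ≤ x) →
    stackGo B (st ++ [x]) = stackGo B st ++ [x]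
  | [], st, _ => by simp [stackGo]
  | b :: B, st, hB => by
    have hb : ¬ x < b := not_lt.2 (hB b mem_cons_self)
    have h1 : (st ++ [x]).takeWhile (· < b) = st.takeWhile (· < b) := by
      induction st with
      | nil => simp [hb]
      | cons c st ih => by_cases hc : c < b <;> simp [hc, ih]
    have h2 : (st ++ [x]).dropWhile (· < b) = st.dropWhile (· < b) ++ [x] := by
      clear h1
      induction st with
      | nil => simp [hb]
      | cons c st ih => by_cases hc : c < b <;> simp [hc, ih]
    rw [stackGo, stackGo, h1, h2, ← cons_append,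
      go_bottom x B _ (fun c hc => hB c (mem_cons_of_mem _ hc)), append_assoc]

theorem sort_max (A B : List ℕ) (x : ℕ) (hA : ∀ a ∈ A, a < x) (hB : ∀ b ∈ B, b ≤ x) :
    stackSort (A ++ x :: B) = stackSort A ++ stackSort B ++ [x] := by
  rw [stackSort, go_split x B A [] hA (by simp), ← nil_append [x], go_bottom x B [] hB,
    append_assoc]
  rfl

theorem dropWhile_ge (x : ℕ) : ∀ st : List ℕ, st.Pairwise (· ≤ ·) →
    ∀ a ∈ st.dropWhile (· < x), x ≤ a
  | [], _ => by simp
  | c :: st, h => by
    by_cases hc : c < x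
    · simpa [dropWhile_cons, hc] using dropWhile_ge x st h.of_cons
    · intro a ha
      simp only [dropWhile_cons, hc, decide_false, Bool.false_eq_true, if_false] at ha
      rcases mem_cons.1 ha with rfl | ha
      · exact not_lt.1 hc
      · exact (not_lt.1 hc).trans (rel_of_pairwise_cons h ha)

theorem go_sorted : ∀ (xs st : List ℕ), xs.Pairwise (· ≤ ·) → st.Pairwise (· ≤ ·) →
    (stackGo xs st).Pairwise (· ≤ ·)
  | [], st, _, hs => hs
  | x :: xs, st, hx, hs => by
    rw [stackGo, pairwise_append]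
    have hd := dropWhile_ge x st hs
    refine ⟨hs.sublist (takeWhile_sublist _), go_sorted xs _ hx.of_cons
      (pairwise_cons.2 ⟨hd, hs.sublist (dropWhile_sublist _)⟩), fun a ha b hb => ?_⟩
    have h1 : a < x := by simpa using mem_takeWhile_imp ha
    have h2 := (go_perm _ _).subset hb
    rcases mem_append.1 h2 with h | h
    · exact h1.le.trans (rel_of_pairwise_cons hx h)
    · rcases mem_cons.1 h with rfl | h
      · exact h1.le
      · exact h1.le.trans (hd b h)

theorem go_eq {xs st l : List ℕ} (hx : xs.Pairwise (· ≤ ·)) (hs : st.Pairwise (· ≤ ·))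
    (hl : l.Pairwise (· ≤ ·)) (hp : xs ++ st ~ l) : stackGo xs st = l :=
  Perm.eq_of_pairwise (fun _ _ _ _ h1 h2 => le_antisymm h1 h2) (go_sorted xs st hx hs) hl
    ((go_perm _ _).trans hp)

theorem go_desc (B : List ℕ) : ∀ (D st : List ℕ), D.Pairwise (· ≥ ·) →
    (∀ d ∈ D, ∀ a ∈ st, d ≤ a) → stackGo (D ++ B) st = stackGo B (D.reverse ++ st)
  | [], st, _, _ => by simp
  | d :: D, st, hD, hs => by
    have h0 : ∀ a ∈ st, ¬ a < d := fun a ha => not_lt.2 (hs d mem_cons_self a ha)
    have h1 : st.takeWhile (· < d) = [] := by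
      cases st with
      | nil => rfl
      | cons c st => simp [h0 c mem_cons_self]
    have h2 : st.dropWhile (· < d) = st := by
      cases st with
      | nil => rfl
      | cons c st => simp [h0 c mem_cons_self]
    rw [cons_append, stackGo, h1, h2, nil_append, go_desc B D _ hD.of_cons]
    · simp
    · intro e he a ha
      rcases mem_cons.1 ha with rfl | ha
      · exact rel_of_pairwise_cons hD he
      · exact hs e (mem_cons_of_mem _ he) a ha

theorem range'_sorted (a b : ℕ) : (range' a b).Pairwise (· ≤ ·) :=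
  (pairwise_lt_range' (s := a) (n := b)).imp le_of_lt

/-- `l` agrees with the identity from position `p` on. -/
def Fix (n p : ℕ) (l : List ℕ) : Prop :=
  p ≤ n ∧ ∃ τ, l = τ ++ range' (p + 1) (n - p) ∧ τ ~ range' 1 p

theorem fix_top {n : ℕ} {l : List ℕ} (h : l ~ range' 1 n) : Fix n n l := ⟨le_rfl, l, by simp, h⟩

theorem sort_append_range (p : ℕ) (τ : List ℕ) (hτ : ∀ a ∈ τ, a ≤ p) (k : ℕ) :
    stackSort (τ ++ range' (p + 1) k) = stackSort τ ++ range' (p + 1) k := by
  cases k with
  | zero => simp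
  | succ k =>
    rw [range'_succ, stackSort, go_split _ _ _ _ (fun a ha => Nat.lt_succ_of_le (hτ a ha)) (by simp),
      go_eq (range'_sorted _ _) (pairwise_singleton _ _) (range'_sorted (p + 1) (k + 1))
        (by rw [range'_succ]; exact perm_append_singleton _ _), range'_succ]
    rfl

theorem Fix.same {n p : ℕ} {l : List ℕ} (h : Fix n p l) : Fix n p (stackSort l) := by
  obtain ⟨hp, τ, rfl, hτ⟩ := h
  refine ⟨hp, stackSort τ, sort_append_range p τ (fun a ha => ?_) _, (sort_perm τ).trans hτ⟩
  have := mem_range'_1.1 (hτ.subset ha); omega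

theorem Fix.iter {n p : ℕ} {l : List ℕ} (h : Fix n p l) (j : ℕ) : Fix n p (stackSort^[j] l) := by
  induction j with
  | zero => exact h
  | succ j ih => rw [Function.iterate_succ_apply']; exact ih.same

theorem fix_of_last {n p : ℕ} (hp : p + 1 ≤ n) (τ : List ℕ) (h : τ ++ [p + 1] ~ range' 1 (p + 1)) :
    Fix n p (τ ++ [p + 1] ++ range' (p + 1 + 1) (n - (p + 1))) := by
  refine ⟨by omega, τ, ?_, ?_⟩
  · obtain ⟨k, rfl⟩ : ∃ k, n = p + 1 + k := ⟨n - (p + 1), by omega⟩
    rw [show p + 1 + k - p = k + 1 by omega, show p + 1 + k - (p + 1) = k by omega, range'_succ]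
    simp
  · rw [range'_concat, Nat.one_mul, Nat.add_comm 1 p] at h
    exact (perm_append_right_iff _).1 h

theorem Fix.step {n p : ℕ} {l : List ℕ} (h : Fix n (p + 1) l) : Fix n p (stackSort l) := by
  obtain ⟨hp, τ, rfl, hτ⟩ := h
  have hle : ∀ a ∈ τ, a ≤ p + 1 := fun a ha => by have := mem_range'_1.1 (hτ.subset ha); omega
  rw [sort_append_range (p + 1) τ hle]
  have hm : p + 1 ∈ τ := hτ.symm.subset (mem_range'_1.2 (by omega))
  obtain ⟨A, B, rfl⟩ := append_of_mem hm
  have hnd : (A ++ (p + 1) :: B).Nodup := hτ.symm.nodup nodup_range'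
  have hA : ∀ a ∈ A, a < p + 1 := fun a ha => by
    have h1 := hle a (mem_append_left _ ha)
    have h2 : a ≠ p + 1 := (nodup_append.1 hnd).2.2 a ha _ mem_cons_self
    omega
  have hs := sort_max A B (p + 1) hA (fun b hb => hle b (mem_append_right _ (mem_cons_of_mem _ hb)))
  rw [hs]
  exact fix_of_last hp _ (by rw [← hs]; exact (sort_perm _).trans hτ)

theorem Fix.get {n p : ℕ} {l : List ℕ} (h : Fix n p l) {i : ℕ} (h1 : p ≤ i) (h2 : i < n) :
    l.getD i 0 = i + 1 := by
  obtain ⟨hp, τ, rfl, hτ⟩ := h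
  have hl : τ.length = p := by simpa using hτ.length_eq
  rw [getD_append_right _ _ _ _ (by omega), getD_eq_getElem _ _ (by simp; omega)]
  simp; omega

theorem Fix.bound {n p : ℕ} {l : List ℕ} (h : Fix n (p + 1) l) :
    1 ≤ l.getD p 0 ∧ l.getD p 0 ≤ p + 1 := by
  obtain ⟨hp, τ, rfl, hτ⟩ := h
  have hl : τ.length = p + 1 := by simpa using hτ.length_eq
  rw [getD_append _ _ _ _ (by omega), getD_eq_getElem _ _ (by omega)]
  have := mem_range'_1.1 (hτ.subset (getElem_mem (l := τ) (n := p) (by omega)))
  omega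

theorem Fix.down {n p : ℕ} {l : List ℕ} (h : Fix n (p + 1) l) (he : l.getD p 0 = p + 1) :
    Fix n p l := by
  obtain ⟨hp, τ, rfl, hτ⟩ := h
  have hl : τ.length = p + 1 := by simpa using hτ.length_eq
  rcases eq_nil_or_concat τ with rfl | ⟨σ, x, rfl⟩
  · simp at hl
  · rw [concat_eq_append] at *
    have hl' : σ.length = p := by simpa using hl
    have hx : x = p + 1 := by
      rw [append_assoc, getD_append_right _ _ _ _ (by omega)] at he
      simpa [hl'] using he
    subst hx
    exact fix_of_last hp _ hτ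

/-- The triangular structure of the vertices. -/
theorem triangular {n : ℕ} {l : List ℕ} (h : l ~ range' 1 n) :
    ∃ P : ℕ → ℕ, (∀ j, Fix n (P j) (stackSort^[j] l)) ∧
      (∀ j p, P j = p + 1 → (stackSort^[j] l).getD p 0 ≠ p + 1 ∧
        ∀ j', j < j' → Fix n p (stackSort^[j'] l)) := by
  classical
  have hex : ∀ j, ∃ p, Fix n p (stackSort^[j] l) := fun j => ⟨n, (fix_top h).iter j⟩
  refine ⟨fun j => Nat.find (hex j), fun j => Nat.find_spec (hex j), fun j p hp => ?_⟩
  have hp' : Nat.find (hex j) = p + 1 := hp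
  have h1 : Fix n (p + 1) (stackSort^[j] l) := hp' ▸ Nat.find_spec (hex j)
  refine ⟨fun he => Nat.find_min (hex j) (by omega) (h1.down he), fun j' hj => ?_⟩
  obtain ⟨k, rfl⟩ : ∃ k, j' = k + (j + 1) := ⟨j' - (j + 1), by omega⟩
  rw [Function.iterate_add_apply, Function.iterate_succ_apply']
  exact h1.step.iter k

theorem fix_iter_sub {n : ℕ} {l : List ℕ} (h : l ~ range' 1 n) (j : ℕ) :
    Fix n (n - j) (stackSort^[j] l) := by
  induction j with
  | zero => exact fix_top h
  | succ j ih =>
    rw [Function.iterate_succ_apply']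
    by_cases hj : j < n
    · rw [show n - j = n - (j + 1) + 1 by omega] at ih; exact ih.step
    · rw [show n - (j + 1) = n - j by omega]; exact ih.same

end Pool.Agent.Lib.MP_cb3ce3_co
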