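import Pool.Agent.Lib.MP_cb3ce3_co.Lower

namespace Pool.Agent.Lib.MP_cb3ce3_co

open Finset Filter Topology

theorem latt_le_max {n : ℕ} {l : List ℕ} (h : l.Perm (List.range' 1 n)) : latt n l ≤ maxLatt n :=
  le_sup (f := latt n) (List.mem_toFinset.2 (List.mem_permutations.2 h))

theorem count_le {n k r j : ℕ} (hk : 1 ≤ k) (hr : 1 ≤ r) (hn : k + r + 1 ≤ n)
    (hj : n - 1 ≤ r * j) (A : Finset (Ico (k + r) (n - 1) → ℕ))
    (hA : ∀ a ∈ A, ∑ m : Ico (k + r) (n - 1), (a m : ℝ) / (m : ℕ) + 2 * j / k + (r : ℝ) / k ≤ 1) :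
    A.card ≤ maxLatt n * n ^ r := by
  classical
  have key : ∀ a : Ico (k + r) (n - 1) → ℕ, ∃ R : Finset ℕ, ∃ z : Fin n → ℤ, a ∈ A →
      R ∈ powersetCard (n - 1 - (k + r)) (Icc (k + 1) (n - 1)) ∧ z ∈ Lat n (piL n k R) ∧
      ∀ (m : Fin n) (hm : (m : ℕ) ∈ Ico (k + r) (n - 1)), z m = (m : ℕ) + 1 - a ⟨m, hm⟩ := by
    intro a
    by_cases ha : a ∈ A
    · obtain ⟨R, hR, z, hz, h⟩ := construct hk hr hn hj
        (fun m => if hm : m ∈ Ico (k + r) (n - 1) then a ⟨m, hm⟩ else 0) (by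
          have := hA a ha
          rw [← sum_coe_sort]
          simpa only [coe_mem, dite_true, Subtype.coe_eta] using this)
      exact ⟨R, z, fun _ => ⟨hR, hz, fun m hm => by rw [h m hm, dif_pos hm]⟩⟩
    · exact ⟨∅, 0, fun h => absurd h ha⟩
  choose R z hRz using key
  refine (card_le_mul_card_image_of_maps_to (f := R) (fun a ha => (hRz a ha).1) (maxLatt n)
    fun Q hQ => ?_).trans (Nat.mul_le_mul_left _ ?_)
  · have hp := piL_perm hk (by omega) (mem_powersetCard.1 hQ).1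
    refine le_trans ?_ (latt_le_max hp)
    rw [latt_eq, ← Set.ncard_coe_finset]
    refine Set.ncard_le_ncard_of_injOn z (fun a ha => ?_) (fun a ha b hb hab => ?_) (lat_bound hp).1
    · obtain ⟨h1, h2⟩ := mem_filter.1 (mem_coe.1 ha)
      rw [← h2]; exact (hRz a h1).2.1
    · funext m
      have hm : (m : ℕ) < n := by have := mem_Ico.1 m.2; omega
      have h1 := (hRz a (mem_filter.1 (mem_coe.1 ha)).1).2.2 ⟨m, hm⟩ m.2
      have h2 := (hRz b (mem_filter.1 (mem_coe.1 hb)).1).2.2 ⟨m, hm⟩ m.2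
      rw [hab, h2] at h1
      simp only [Subtype.coe_eta] at h1
      omega
  · rw [card_powersetCard, Nat.card_Icc, show n - 1 - (k + r) = n - 1 + 1 - (k + 1) - r by omega,
      Nat.choose_symm (by omega)]
    exact (Nat.choose_le_pow _ _).trans (Nat.pow_le_pow_left (by omega) _)

/-- `G v = - log (1 - e^{-v})`. -/
noncomputable def G (v : ℝ) : ℝ := - Real.log (1 - Real.exp (-v))

theorem one_sub_pos {v : ℝ} (hv : 0 < v) : 0 < 1 - Real.exp (-v) :=
  sub_pos.2 (Real.exp_lt_one_iff.2 (by linarith))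

theorem exp_G {v : ℝ} (hv : 0 < v) : Real.exp (G v) = (1 - Real.exp (-v))⁻¹ := by
  rw [G, Real.exp_neg, Real.exp_log (one_sub_pos hv)]

theorem G_nonneg {v : ℝ} (hv : 0 ≤ v) : 0 ≤ G v :=
  neg_nonneg.2 (Real.log_nonpos (sub_nonneg.2 (Real.exp_le_one_iff.2 (by linarith)))
    (by linarith [Real.exp_pos (-v)]))

theorem G_anti {v w : ℝ} (hv : 0 < v) (h : v ≤ w) : G w ≤ G v :=
  neg_le_neg (Real.log_le_log (one_sub_pos hv)
    (by linarith [Real.exp_le_exp.2 (neg_le_neg h)]))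

theorem G_second {v0 v d : ℝ} (h0 : 0 < v0) (hv : v0 ≤ v - d) (hd : 0 ≤ d) (hd1 : d ≤ 1)
    (hd2 : 4 * d ≤ (1 - Real.exp (-v0)) ^ 2) :
    G (v + d) + G (v - d) - 2 * G v ≤ 4 * d ^ 2 / (1 - Real.exp (-v0)) ^ 2 := by
  set p0 := 1 - Real.exp (-v0) with hp0
  have h1 : 0 < p0 := one_sub_pos h0
  set q := Real.exp (-v) with hq
  have hq0 : 0 < q := Real.exp_pos _
  have hq1 : p0 ≤ 1 - q := by linarith [Real.exp_le_exp.2 (show -v ≤ -v0 by linarith)]
  have h2 := one_sub_pos (show 0 < v + d by linarith)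
  have h3 := one_sub_pos (show 0 < v - d by linarith)
  set ρ := 2 * d ^ 2 / p0 ^ 2 with hρ
  have hρ0 : 0 ≤ ρ := by positivity
  have hρ1 : ρ ≤ 1 / 2 := by rw [hρ, div_le_iff₀ (by positivity)]; nlinarith
  have h4 : Real.exp d + Real.exp (-d) - 2 ≤ 2 * d ^ 2 := by
    have e1 := Real.cosh_le_exp_half_sq d
    have e2 := Real.abs_exp_sub_one_le (x := d ^ 2 / 2) (by rw [abs_of_nonneg (by positivity)]; nlinarith)
    rw [abs_of_nonneg (show 0 ≤ d ^ 2 / 2 by positivity)] at e2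
    rw [Real.cosh_eq] at e1
    linarith [le_abs_self (Real.exp (d ^ 2 / 2) - 1)]
  have h5 : (1 - q) ^ 2 * (1 - ρ) ≤ (1 - Real.exp (-(v + d))) * (1 - Real.exp (-(v - d))) := by
    have e1 : Real.exp (-(v + d)) = q * Real.exp (-d) := by rw [← Real.exp_add]; congr 1; ring
    have e2 : Real.exp (-(v - d)) = q * Real.exp d := by rw [← Real.exp_add]; congr 1; ring
    have e3 : Real.exp (-d) * Real.exp d = 1 := by rw [← Real.exp_add]; simp
    have e4 : 2 * d ^ 2 ≤ (1 - q) ^ 2 * ρ := by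
      have : ρ * p0 ^ 2 = 2 * d ^ 2 := div_mul_cancel₀ _ (by positivity)
      nlinarith [mul_le_mul_of_nonneg_left (pow_le_pow_left₀ h1.le hq1 2) hρ0]
    have e5 : q * (Real.exp d + Real.exp (-d) - 2) ≤ 2 * d ^ 2 :=
      (mul_le_mul_of_nonneg_left h4 hq0.le).trans (by nlinarith [sq_nonneg d])
    have e6 : (1 - q * Real.exp (-d)) * (1 - q * Real.exp d) =
        (1 - q) ^ 2 - q * (Real.exp d + Real.exp (-d) - 2) := by
      linear_combination q ^ 2 * e3
    rw [e1, e2, e6]; linarith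
  have h6 := Real.log_le_log (by have : 0 < 1 - q := by linarith
                                 have : 0 < 1 - ρ := by linarith
                                 positivity) h5
  rw [Real.log_mul h2.ne' h3.ne', Real.log_mul (by have : 0 < 1 - q := by linarith
                                                   positivity) (by linarith), Real.log_pow] at h6
  have h7 : -(2 * ρ) ≤ Real.log (1 - ρ) := by
    have := Real.one_sub_inv_le_log_of_pos (show 0 < 1 - ρ by linarith)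
    have e : (1 - ρ)⁻¹ ≤ 1 + 2 * ρ := by
      rw [inv_le_iff_one_le_mul₀ (by linarith)]; nlinarith
    linarith
  have h8 : 4 * d ^ 2 / p0 ^ 2 = 2 * ρ := by rw [hρ]; ring
  simp only [G, ← hq]
  push_cast at h6
  linarith

theorem tilt {α : Type} (P : Finset α) (X : α → ℝ) {s h lo hi : ℝ} (hs : 0 ≤ s) (hh : 0 ≤ h) :
    ∑ a ∈ P, Real.exp (-(s * X a)) ≤ (P.filter fun a => X a ≤ hi).card * Real.exp (-(s * lo)) +
      Real.exp (-(h * hi)) * ∑ a ∈ P, Real.exp (-((s - h) * X a)) +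
      Real.exp (h * lo) * ∑ a ∈ P, Real.exp (-((s + h) * X a)) := by
  rw [card_filter, Nat.cast_sum, sum_mul, mul_sum, mul_sum, ← sum_add_distrib, ← sum_add_distrib]
  refine sum_le_sum fun a _ => ?_
  rw [← Real.exp_add, ← Real.exp_add]
  have h1 := Real.exp_pos (-(h * hi) + -((s - h) * X a))
  have h2 := Real.exp_pos (h * lo + -((s + h) * X a))
  have h3 := Real.exp_pos (-(s * lo))
  by_cases ha : X a ≤ hi
  · rw [if_pos ha]
    by_cases hb : lo ≤ X a
    · have := Real.exp_le_exp.2 (show -(s * X a) ≤ -(s * lo) by nlinarith)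
      push_cast; linarith
    · have := Real.exp_le_exp.2 (show -(s * X a) ≤ h * lo + -((s + h) * X a) by nlinarith)
      push_cast; linarith
  · rw [if_neg ha]
    have := Real.exp_le_exp.2 (show -(s * X a) ≤ -(h * hi) + -((s - h) * X a) by nlinarith)
    push_cast; linarith

theorem tilt_one {α : Type} (P : Finset α) (X : α → ℝ) (hX : ∀ a, 0 ≤ X a) {s h hi : ℝ}
    (hs : 0 ≤ s) (hh : 0 ≤ h) :
    ∑ a ∈ P, Real.exp (-(s * X a)) ≤ (P.filter fun a => X a ≤ hi).card +
      Real.exp (-(h * hi)) * ∑ a ∈ P, Real.exp (-((s - h) * X a)) := by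
  rw [card_filter, Nat.cast_sum, mul_sum, ← sum_add_distrib]
  refine sum_le_sum fun a _ => ?_
  rw [← Real.exp_add]
  have h1 := Real.exp_pos (-(h * hi) + -((s - h) * X a))
  by_cases ha : X a ≤ hi
  · rw [if_pos ha]
    have := Real.exp_le_one_iff.2 (show -(s * X a) ≤ 0 by nlinarith [hX a])
    push_cast; linarith
  · rw [if_neg ha]
    have := Real.exp_le_exp.2 (show -(s * X a) ≤ -(h * hi) + -((s - h) * X a) by nlinarith)
    push_cast; linarith

theorem many {ι : Type} [Fintype ι] [DecidableEq ι] (c : ι → ℝ) {s0 h x0 y Λ : ℝ} (h0 : 0 < s0)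
    (hh : 0 < h) (hx : 0 < x0) (hc : ∀ i, 1 ≤ c i ∧ c i ≤ Λ) (hd1 : h * Λ ≤ 1)
    (hd2 : 4 * (h * Λ) ≤ (1 - Real.exp (-s0)) ^ 2)
    (hy : Fintype.card ι * (4 * (h * Λ) ^ 2 / (1 - Real.exp (-s0)) ^ 2) + 3 ≤ h * y) :
    ∃ (s : ℝ) (T : ℕ), s0 ≤ s ∧
      min (s * (x0 - y) + ∑ i, G (s * c i)) (s * x0 + ∑ i, G (s * c i) - (s0 + h) * x0) ≤
      Real.log (((Fintype.piFinset fun _ : ι => range T).filter
        fun a => ∑ i, (a i : ℝ) * c i ≤ x0 + y).card) + 1 := by
  set Φ : ℝ → ℝ := fun u => ∑ i, G (u * c i) with hΦ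
  have hc0 : ∀ i, 0 < c i := fun i => zero_lt_one.trans_le (hc i).1
  have hΦ0 : ∀ u, 0 ≤ u → 0 ≤ Φ u := fun u hu =>
    sum_nonneg fun i _ => G_nonneg (mul_nonneg hu (hc0 i).le)
  have hZ : ∀ u, 0 < u → ∀ T, ∑ a ∈ Fintype.piFinset (fun _ : ι => range T),
      Real.exp (-(u * ∑ i, a i * c i)) ≤ Real.exp (Φ u) := fun u hu T => by
    rw [hΦ, Real.exp_sum]
    exact (sum_exp_le c hc0 hu T).trans_eq
      (prod_congr rfl fun i _ => (exp_G (mul_pos hu (hc0 i))).symm)
  have hT : ∀ u, 0 < u → ∃ T, 3 / 4 * Real.exp (Φ u) ≤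
      ∑ a ∈ Fintype.piFinset (fun _ : ι => range T), Real.exp (-(u * ∑ i, a i * c i)) := by
    intro u hu
    have h1 : Tendsto (fun T => ∏ i, ∑ k ∈ range T, Real.exp (-(u * c i)) ^ k) atTop
        (𝓝 (Real.exp (Φ u))) := by
      rw [hΦ, Real.exp_sum]
      refine tendsto_finsetProd _ fun i _ => ?_
      rw [exp_G (mul_pos hu (hc0 i))]
      exact (hasSum_geometric_of_lt_one (Real.exp_pos _).le
        (by linarith [one_sub_pos (mul_pos hu (hc0 i))])).tendsto_sum_nat
    obtain ⟨T, hT⟩ := (h1.eventually (lt_mem_nhds (show 3 / 4 * Real.exp (Φ u) < _ by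
      linarith [Real.exp_pos (Φ u)]))).exists
    exact ⟨T, by rw [sum_exp_pi]; exact hT.le⟩
  have hsec : ∀ s, s0 ≤ s - h → Φ (s + h) + Φ (s - h) - 2 * Φ s + 3 ≤ h * y := fun s hs => by
    refine le_trans ?_ hy
    simp only [hΦ, mul_sum, ← sum_add_distrib, ← sum_sub_distrib, ← nsmul_eq_mul, ← card_univ,
      ← sum_const, add_le_add_iff_right]
    refine sum_le_sum fun i _ => ?_
    obtain ⟨h1, h2⟩ := hc i
    have h3 : h * c i ≤ h * Λ := mul_le_mul_of_nonneg_left h2 hh.le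
    have h4 : 0 ≤ h * c i := by positivity
    have := G_second (v := s * c i) (d := h * c i) h0 (by nlinarith) h4 (by linarith) (by linarith)
    rw [← add_mul, ← sub_mul] at this
    refine le_trans (by simpa using this) ?_
    gcongr
  have he : Real.exp (-3) ≤ 1 / 8 := by
    have := Real.add_one_le_exp (1 : ℝ)
    have e : Real.exp 3 = Real.exp 1 ^ 3 := by rw [← Real.exp_nat_mul]; norm_num
    rw [Real.exp_neg, e, one_div]
    exact inv_anti₀ (by norm_num) (le_trans (by norm_num) (pow_le_pow_left₀ (by norm_num) this 3))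
  have hlog : ∀ (N : ℕ) (w : ℝ), Real.exp w / 2 ≤ N → w ≤ Real.log N + 1 := fun N w hw => by
    have h1 := Real.log_le_log (by positivity) hw
    rw [Real.log_div (Real.exp_pos _).ne' (by norm_num), Real.log_exp] at h1
    linarith [Real.log_le_sub_one_of_pos (show (0 : ℝ) < 2 by norm_num)]
  have hex : ∃ i : ℕ, Φ (s0 + i * h) ≤ Φ (s0 + (i + 1 : ℕ) * h) + h * x0 := by
    by_contra hne
    push Not at hne
    have h1 : ∀ i : ℕ, Φ (s0 + i * h) + i * (h * x0) ≤ Φ s0 := by
      intro i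
      induction i with
      | zero => simp
      | succ i ih => have := hne i; push_cast at this ⊢; linarith
    obtain ⟨i, hi⟩ := exists_nat_gt (Φ s0 / (h * x0))
    rw [div_lt_iff₀ (by positivity)] at hi
    linarith [h1 i, hΦ0 (s0 + i * h) (by positivity)]
  have hup : ∀ s, s0 ≤ s - h → Φ (s - h) - h * x0 + 3 ≤ Φ s + h * y → ∀ T,
      Real.exp (-(h * (x0 + y))) * ∑ a ∈ Fintype.piFinset (fun _ : ι => range T),
        Real.exp (-((s - h) * ∑ i, a i * c i)) ≤ Real.exp (Φ s) / 8 := fun s h1 h2 T => by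
    refine (mul_le_mul_of_nonneg_left (hZ _ (by linarith) T) (Real.exp_pos _).le).trans ?_
    rw [← Real.exp_add]
    refine (Real.exp_le_exp.2 (show _ ≤ Φ s + -3 by linarith)).trans ?_
    rw [Real.exp_add]
    nlinarith [Real.exp_pos (Φ s)]
  classical
  have hf := Nat.find_spec hex
  rcases Nat.eq_zero_or_pos (Nat.find hex) with hz | hz
  · rw [hz] at hf
    obtain ⟨T, hT⟩ := hT (s0 + h) (by linarith)
    refine ⟨s0 + h, T, by linarith, (min_le_right _ _).trans (hlog _ _ ?_)⟩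
    have h1 := tilt_one (Fintype.piFinset fun _ : ι => range T) (fun a => ∑ i, (a i : ℝ) * c i)
      (fun a => sum_nonneg fun i _ => mul_nonneg (Nat.cast_nonneg _) (hc0 i).le)
      (s := s0 + h) (hi := x0 + y) (by linarith) hh.le
    have h3 : (3 : ℝ) ≤ h * y := le_trans (le_add_of_nonneg_left (by positivity)) hy
    have h2 := hup (s0 + h) (by linarith) (by simp at hf ⊢; linarith) T
    rw [add_sub_cancel_left]
    change Real.exp (Φ (s0 + h)) / 2 ≤ _
    linarith [Real.exp_pos (Φ (s0 + h))]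
  · obtain ⟨i, hi⟩ := Nat.exists_eq_add_of_lt hz
    rw [zero_add] at hi
    have hm := Nat.find_min hex (m := i) (by omega)
    rw [hi] at hf
    set s := s0 + (i + 1 : ℕ) * h with hs
    have e1 : s0 + i * h = s - h := by rw [hs]; push_cast; ring
    have e2 : s0 + (i + 1 + 1 : ℕ) * h = s + h := by rw [hs]; push_cast; ring
    have e3 : s0 ≤ s - h := by rw [← e1]; exact le_add_of_nonneg_right (by positivity)
    rw [e1, not_le] at hm
    rw [e2] at hf
    have h0' := hsec s e3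
    obtain ⟨T, hT⟩ := hT s (by linarith)
    refine ⟨s, T, by linarith, (min_le_left _ _).trans (hlog _ _ ?_)⟩
    have h1 := tilt (Fintype.piFinset fun _ : ι => range T) (fun a => ∑ i, (a i : ℝ) * c i)
      (s := s) (lo := x0 - y) (hi := x0 + y) (by linarith) hh.le
    have h2 := hup s e3 (by linarith) T
    have h3 : Real.exp (h * (x0 - y)) * ∑ a ∈ Fintype.piFinset (fun _ : ι => range T),
        Real.exp (-((s + h) * ∑ i, a i * c i)) ≤ Real.exp (Φ s) / 8 := by
      refine (mul_le_mul_of_nonneg_left (hZ _ (by linarith) T) (Real.exp_pos _).le).trans ?_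
      rw [← Real.exp_add]
      refine (Real.exp_le_exp.2 (show _ ≤ Φ s + -3 by linarith)).trans ?_
      rw [Real.exp_add]
      nlinarith [Real.exp_pos (Φ s)]
    change Real.exp (s * (x0 - y) + Φ s) / 2 ≤ _
    rw [Real.exp_add, mul_div_assoc, mul_comm, ← le_div_iff₀ (Real.exp_pos _), div_eq_mul_inv _
      (Real.exp _), ← Real.exp_neg]
    linarith

end Pool.Agent.Lib.MP_cb3ce3_co
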