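import Pool.Agent.Lib.MP_cb3ce3_co.Stack

namespace Pool.Agent.Lib.MP_cb3ce3_co

open Finset

/-- The set of lattice points. -/
def Lat (n : ℕ) (l : List ℕ) : Set (Fin n → ℤ) :=
  {z | (fun i => (z i : ℝ)) ∈ convexHull ℝ (Set.range fun j : ℕ => pt n (stackSort^[j] l))}

theorem latt_eq (n : ℕ) (l : List ℕ) : latt n l = (Lat n l).ncard := rfl

theorem hull_weights {n : ℕ} {l : List ℕ} (h : l.Perm (List.range' 1 n)) {x : Fin n → ℝ}
    (hx : x ∈ convexHull ℝ (Set.range fun j : ℕ => pt n (stackSort^[j] l))) :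
    ∃ w : ℕ → ℝ, (∀ j, 0 ≤ w j) ∧ ∑ j ∈ range (n + 1), w j = 1 ∧
      ∀ c : Fin n, x c = ∑ j ∈ range (n + 1), w j * pt n (stackSort^[j] l) c := by
  refine convexHull_min (t := {x : Fin n → ℝ | ∃ w : ℕ → ℝ, (∀ j, 0 ≤ w j) ∧
    ∑ j ∈ range (n + 1), w j = 1 ∧
      ∀ c : Fin n, x c = ∑ j ∈ range (n + 1), w j * pt n (stackSort^[j] l) c}) ?_ ?_ hx
  · rintro _ ⟨j, rfl⟩
    refine ⟨fun i => if i = min j n then 1 else 0, fun i => by positivity, ?_, fun c => ?_⟩
    · simp
    · simp only [ite_mul, one_mul, zero_mul, sum_ite_eq', mem_range, Nat.lt_succ_iff, min_le_right,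
        if_true]
      rcases le_total j n with hj | hj
      · rw [min_eq_left hj]
      · rw [min_eq_right hj]
        have h1 := (fix_iter_sub h j).get (i := c) (by omega) c.2
        have h2 := (fix_iter_sub h n).get (i := c) (by omega) c.2
        simp only [pt, h1, h2]
  · rintro x ⟨w, hw, hs, hx⟩ y ⟨w', hw', hs', hy⟩ a b ha hb hab
    refine ⟨fun j => a * w j + b * w' j, fun j => by have := hw j; have := hw' j; positivity, ?_,
      fun c => ?_⟩
    · rw [sum_add_distrib, ← mul_sum, ← mul_sum, hs, hs']; linarith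
    · simp only [Pi.add_apply, Pi.smul_apply, smul_eq_mul, hx c, hy c, mul_sum, ← sum_add_distrib]
      exact sum_congr rfl fun j _ => by ring

theorem eq_of_floor {x y : ℝ} (hx : 0 ≤ x) (hy : 0 ≤ y) (h : ⌊x⌋₊ = ⌊y⌋₊) (k : ℤ)
    (hk : x - y = k) : x = y := by
  have h1 := Nat.floor_le hx
  have h2 := Nat.floor_le hy
  have h3 := Nat.lt_floor_add_one x
  have h4 := Nat.lt_floor_add_one y
  rw [h] at h1 h3
  have h5 : (k : ℝ) < 1 := by linarith
  have h6 : (-1 : ℝ) < k := by linarith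
  have h7 : k < 1 := by exact_mod_cast h5
  have h8 : -1 < k := by exact_mod_cast h6
  have : k = 0 := by omega
  rw [this] at hk; simp at hk; linarith

theorem geom_le {q : ℝ} (h0 : 0 ≤ q) (h1 : q < 1) (T : ℕ) :
    ∑ a ∈ range T, q ^ a ≤ (1 - q)⁻¹ := by
  rw [← tsum_geometric_of_lt_one h0 h1]
  exact (summable_geometric_of_lt_one h0 h1).sum_le_tsum _ fun i _ => by positivity

theorem sum_exp_pi {ι : Type} [Fintype ι] [DecidableEq ι] (c : ι → ℝ) (u : ℝ) (T : ℕ) :
    ∑ a ∈ Fintype.piFinset (fun _ : ι => range T), Real.exp (-(u * ∑ i, a i * c i)) =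
      ∏ i, ∑ k ∈ range T, Real.exp (-(u * c i)) ^ k := by
  rw [prod_univ_sum]
  refine sum_congr rfl fun a _ => ?_
  rw [mul_sum, ← sum_neg_distrib, Real.exp_sum]
  refine prod_congr rfl fun i _ => ?_
  rw [← Real.exp_nat_mul]; congr 1; ring

theorem sum_exp_le {ι : Type} [Fintype ι] [DecidableEq ι] (c : ι → ℝ) (hc : ∀ i, 0 < c i) {u : ℝ}
    (hu : 0 < u) (T : ℕ) :
    ∑ a ∈ Fintype.piFinset (fun _ : ι => range T), Real.exp (-(u * ∑ i, a i * c i)) ≤
      ∏ i, (1 - Real.exp (-(u * c i)))⁻¹ := by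
  rw [sum_exp_pi]
  refine prod_le_prod (fun i _ => by positivity) fun i _ => geom_le (Real.exp_pos _).le ?_ T
  have := mul_pos hu (hc i)
  exact Real.exp_lt_one_iff.2 (by linarith)

theorem one_le_inv_exp {x : ℝ} (hx : 0 < x) : 1 ≤ (1 - Real.exp (-x))⁻¹ := by
  have h1 : Real.exp (-x) < 1 := Real.exp_lt_one_iff.2 (by linarith)
  have h2 := Real.exp_pos (-x)
  exact one_le_inv₀ (by linarith) |>.2 (by linarith)

theorem lat_bound {n : ℕ} {l : List ℕ} (h : l.Perm (List.range' 1 n)) :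
    (Lat n l).Finite ∧ ∀ u : ℝ, 0 < u → ((Lat n l).ncard : ℝ) ≤
      Real.exp u * ∏ m ∈ Ico 1 n, (1 - Real.exp (-(u * (m : ℝ)⁻¹)))⁻¹ := by
  classical
  obtain ⟨P, hP, hT⟩ := triangular h
  set v : ℕ → ℕ → ℕ := fun j c => (stackSort^[j] l).getD c 0 with hv
  have hw : ∀ z : Lat n l, ∃ w : ℕ → ℝ, (∀ j, 0 ≤ w j) ∧ ∑ j ∈ range (n + 1), w j = 1 ∧
      ∀ c : Fin n, (z.1 c : ℝ) = ∑ j ∈ range (n + 1), w j * (v j c : ℝ) :=
    fun z => hull_weights h z.2
  choose w hw0 hw1 hw2 using hw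
  have hw3 : ∀ (z : Lat n l) (c : Fin n), (z.1 c : ℝ) =
      (c + 1) - ∑ j ∈ range (n + 1), w z j * ((c + 1 : ℝ) - v j c) := fun z c => by
    simp only [mul_sub, sum_sub_distrib, ← sum_mul, hw1 z, hw2 z c]; ring
  set J := (range (n + 1)).filter fun j => P j ≠ 0 with hJ
  set q : ℕ → ℕ := fun j => P j - v j (P j - 1) with hq
  have hq1 : ∀ j, P j ≠ 0 → 1 ≤ q j ∧ q j ≤ P j - 1 ∧ P j ≤ n ∧ v j (P j - 1) ≤ P j := by
    intro j hj
    obtain ⟨p, hp⟩ := Nat.exists_eq_succ_of_ne_zero hj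
    have h1 := hP j
    rw [hp] at h1
    have h2 := h1.bound
    have h3 := (hT j p hp).1
    have h4 := h1.1
    simp only [hq, hv, hp, Nat.succ_sub_one, Nat.succ_eq_add_one]
    omega
  set a : Lat n l → J → ℕ := fun z j => ⌊(q j : ℝ) * w z j⌋₊ with ha
  have hinj : Function.Injective a := by
    intro z z' hzz
    have key : ∀ j, j < n + 1 → P j ≠ 0 → w z j = w z' j := by
      intro j
      induction j using Nat.strong_induction_on with
      | _ j ih =>
        intro hj hPj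
        obtain ⟨h1, h2, h3, h4⟩ := hq1 j hPj
        obtain ⟨p, hp⟩ := Nat.exists_eq_succ_of_ne_zero hPj
        have hpn : p < n := by omega
        have e1 := hw3 z ⟨p, hpn⟩
        have e2 := hw3 z' ⟨p, hpn⟩
        have e3 : ∑ i ∈ range (n + 1), (w z i - w z' i) * ((p + 1 : ℝ) - v i p) =
            (w z j - w z' j) * ((p + 1 : ℝ) - v j p) := by
          refine sum_eq_single j (fun i hi hij => ?_) (fun hh => absurd (mem_range.2 hj) hh)
          rcases lt_or_gt_of_ne hij with hlt | hgt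
          · by_cases hPi : P i = 0
            · have : v i p = p + 1 := (hP i).get (i := p) (by omega) hpn
              simp [this]
            · rw [ih i hlt (mem_range.1 hi) hPi]; simp
          · have : v i p = p + 1 := ((hT j p hp).2 i hgt).get (i := p) le_rfl hpn
            simp [this]
        have e4 : (q j : ℝ) = (p + 1 : ℝ) - v j p := by
          simp only [hq, hp, Nat.succ_sub_one] at h4 ⊢
          rw [Nat.cast_sub h4]; simp
        have e5 : (q j : ℝ) * w z j = q j * w z' j := by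
          refine eq_of_floor (by have := hw0 z j; positivity) (by have := hw0 z' j; positivity)
            (congrFun hzz ⟨j, mem_filter.2 ⟨mem_range.2 hj, hPj⟩⟩)
            (z'.1 ⟨p, hpn⟩ - z.1 ⟨p, hpn⟩) ?_
          simp only [sub_mul, sum_sub_distrib] at e3
          push_cast
          simp only at e1 e2
          rw [e1, e2, e4]; linarith
        have : (q j : ℝ) ≠ 0 := by exact_mod_cast (by omega : q j ≠ 0)
        exact mul_left_cancel₀ this e5
    refine Subtype.ext (funext fun c => ?_)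
    have : (z.1 c : ℝ) = z'.1 c := by
      rw [hw3, hw3]
      congr 1
      refine sum_congr rfl fun i hi => ?_
      by_cases hPi : P i = 0
      · have : v i c = c + 1 := (hP i).get (i := c) (by omega) c.2
        simp [this]
      · rw [key i (mem_range.1 hi) hPi]
    exact_mod_cast this
  have hw4 : ∀ z, ∑ j : J, w z j ≤ 1 := fun z => by
    rw [← hw1 z, sum_coe_sort J (w z)]
    exact sum_le_sum_of_subset_of_nonneg (filter_subset _ _) fun i _ _ => hw0 z i
  have hle : ∀ z (j : J), (a z j : ℝ) * ((P j - 1 : ℕ) : ℝ)⁻¹ ≤ w z j := fun z j => by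
    obtain ⟨h1, h2, h3, h4⟩ := hq1 j (mem_filter.1 j.2).2
    have h5 : (0 : ℝ) < (P j - 1 : ℕ) := by exact_mod_cast (by omega : 0 < P j - 1)
    rw [← div_eq_mul_inv, div_le_iff₀ h5]
    have h6 : (a z j : ℝ) ≤ q j * w z j := Nat.floor_le (by have := hw0 z j; positivity)
    have h7 : (q j : ℝ) ≤ (P j - 1 : ℕ) := by exact_mod_cast h2
    nlinarith [hw0 z j]
  set S := (Fintype.piFinset fun _ : J => range (n + 1)).filter
    fun b => ∑ j : J, (b j : ℝ) * ((P j - 1 : ℕ) : ℝ)⁻¹ ≤ 1 with hS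
  have hmem : ∀ z, a z ∈ S := fun z => by
    refine mem_filter.2 ⟨Fintype.mem_piFinset.2 fun j => ?_,
      (sum_le_sum fun j _ => hle z j).trans (hw4 z)⟩
    obtain ⟨h1, h2, h3, h4⟩ := hq1 j (mem_filter.1 j.2).2
    have h5 : (0 : ℝ) < (P j - 1 : ℕ) := by exact_mod_cast (by omega : 0 < P j - 1)
    have h6 := hle z j
    have h7 : w z j ≤ 1 :=
      (single_le_sum (f := fun i : J => w z i) (fun i _ => hw0 z i) (mem_univ j)).trans (hw4 z)
    rw [← div_eq_mul_inv] at h6
    have h8 := (div_le_one h5).1 (h6.trans h7)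
    have h9 : a z j ≤ P j - 1 := by exact_mod_cast h8
    exact mem_range.2 (by omega)
  have hfin : Finite (Lat n l) :=
    Finite.of_injective (fun z => (⟨a z, hmem z⟩ : S)) fun z z' hh => hinj (congrArg Subtype.val hh)
  refine ⟨hfin, fun u hu => ?_⟩
  have hc : (Lat n l).ncard ≤ S.card := by
    rw [← Nat.card_coe_set_eq, ← Nat.card_eq_finsetCard S]
    exact Nat.card_le_card_of_injective (fun z => (⟨a z, hmem z⟩ : S))
      fun z z' hh => hinj (congrArg Subtype.val hh)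
  have hpos : ∀ j : J, (0 : ℝ) < ((P j - 1 : ℕ) : ℝ)⁻¹ := fun j => by
    obtain ⟨h1, h2, h3, h4⟩ := hq1 j (mem_filter.1 j.2).2
    exact inv_pos.2 (by exact_mod_cast (by omega : 0 < P j - 1))
  have hPinj : Set.InjOn (fun j => P j - 1) J := by
    have : ∀ i ∈ J, ∀ j ∈ J, i < j → P i - 1 ≠ P j - 1 := by
      intro i hi j hj hij he
      obtain ⟨p, hp⟩ := Nat.exists_eq_succ_of_ne_zero (mem_filter.1 hi).2
      obtain ⟨h1, h2, h3, h4⟩ := hq1 j (mem_filter.1 hj).2
      have h5 := ((hT i p hp).2 j hij).get (i := p) le_rfl (by omega)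
      exact (hT j p (by omega)).1 h5
    intro i hi j hj he
    rcases lt_trichotomy i j with hh | hh | hh
    · exact absurd he (this i hi j hj hh)
    · exact hh
    · exact absurd he.symm (this j hj i hi hh)
  calc ((Lat n l).ncard : ℝ) ≤ S.card := by exact_mod_cast hc
    _ = ∑ b ∈ S, 1 := by simp
    _ ≤ ∑ b ∈ S, Real.exp u * Real.exp (-(u * ∑ j : J, (b j : ℝ) * ((P j - 1 : ℕ) : ℝ)⁻¹)) := by
      refine sum_le_sum fun b hb => ?_
      rw [← Real.exp_add]
      have := (mem_filter.1 hb).2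
      exact Real.one_le_exp (by nlinarith)
    _ ≤ ∑ b ∈ Fintype.piFinset fun _ : J => range (n + 1),
        Real.exp u * Real.exp (-(u * ∑ j : J, (b j : ℝ) * ((P j - 1 : ℕ) : ℝ)⁻¹)) :=
      sum_le_sum_of_subset_of_nonneg (filter_subset _ _) fun _ _ _ => by positivity
    _ ≤ Real.exp u * ∏ j : J, (1 - Real.exp (-(u * ((P j - 1 : ℕ) : ℝ)⁻¹)))⁻¹ := by
      rw [← mul_sum]
      exact mul_le_mul_of_nonneg_left (sum_exp_le _ hpos hu _) (Real.exp_pos _).le
    _ ≤ _ := by
      refine mul_le_mul_of_nonneg_left ?_ (Real.exp_pos _).le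
      rw [prod_coe_sort J fun j => (1 - Real.exp (-(u * ((P j - 1 : ℕ) : ℝ)⁻¹)))⁻¹,
        ← prod_image (f := fun m : ℕ => (1 - Real.exp (-(u * (m : ℝ)⁻¹)))⁻¹) hPinj]
      have h1 : ∀ m ∈ Ico 1 n, 1 ≤ (1 - Real.exp (-(u * (m : ℝ)⁻¹)))⁻¹ := fun m hm =>
        one_le_inv_exp (mul_pos hu (inv_pos.2 (by exact_mod_cast (mem_Ico.1 hm).1)))
      have h2 : image (fun j => P j - 1) J ⊆ Ico 1 n := by
        intro m hm
        obtain ⟨j, hj, rfl⟩ := mem_image.1 hm
        obtain ⟨h1, h2, h3, h4⟩ := hq1 j (mem_filter.1 hj).2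
        exact mem_Ico.2 (by omega)
      exact prod_le_prod_of_subset_of_one_le h2 (fun m hm => zero_le_one.trans (h1 m (h2 hm)))
        fun m hm _ => h1 m hm

end Pool.Agent.Lib.MP_cb3ce3_co
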