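import Pool.Agent.Lib.MP_cb3ce3_co.Upper

namespace Pool.Agent.Lib.MP_cb3ce3_co

open List

/-- The word `2 3 … (m+1) 1 (m+2) … n`. -/
def uL (n m : ℕ) : List ℕ := range' 2 m ++ 1 :: range' (m + 2) (n - m - 1)

theorem sort_range' (a b : ℕ) : stackSort (range' a b) = range' a b :=
  go_eq (range'_sorted _ _) Pairwise.nil (range'_sorted _ _) (by simp)

theorem sort_uL {n m : ℕ} (h : m + 2 ≤ n) : stackSort (uL n (m + 1)) = uL n m := by
  obtain ⟨d, rfl⟩ : ∃ d, n = m + 2 + d := ⟨n - (m + 2), by omega⟩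
  have h1 : stackGo (range' 2 m) [] = range' 2 m := sort_range' 2 m
  rw [uL, uL, range'_concat, Nat.one_mul, append_assoc, singleton_append, stackSort,
    go_split _ _ _ _ (fun a ha => by have := mem_range'_1.1 ha; omega) (by simp), h1,
    show m + 2 + d - (m + 1) - 1 = d by omega, show m + 2 + d - m - 1 = d + 1 by omega, stackGo]
  have h2 : ¬ 2 + m < 1 := by omega
  simp only [takeWhile_cons, dropWhile_cons, h2, decide_false, Bool.false_eq_true, if_false,
    nil_append]
  congr 1
  refine go_eq (range'_sorted _ _) (by simp; omega) ?_ ?_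
  · exact pairwise_cons.2 ⟨fun a ha => by have := mem_range'_1.1 ha; omega, range'_sorted _ _⟩
  · rw [range'_succ, Nat.add_comm 2 m]
    exact perm_append_comm

theorem iter_uL {n : ℕ} {l : List ℕ} (hl : stackSort l = uL n (n - 2)) :
    ∀ j, j + 2 ≤ n → stackSort^[j + 1] l = uL n (n - 2 - j)
  | 0, _ => hl
  | j + 1, h => by
    rw [Function.iterate_succ_apply', iter_uL hl j (by omega),
      show n - 2 - j = n - 2 - (j + 1) + 1 by omega, sort_uL (by omega)]

theorem uL_get {n m i : ℕ} (hi : i < n) :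
    (uL n m).getD i 0 = if i < m then i + 2 else if i = m then 1 else i + 1 := by
  unfold uL
  split_ifs with h1 h2
  · rw [getD_append _ _ _ _ (by simpa using h1), getD_eq_getElem _ _ (by simpa using h1)]
    simp; omega
  · rw [getD_append_right _ _ _ _ (by simp; omega)]; simp [h2]
  · rw [getD_append_right _ _ _ _ (by simp; omega), length_range',
      show i - m = i - m - 1 + 1 by omega, getD_cons_succ, getD_eq_getElem _ _ (by simp; omega)]
    simp; omega

theorem hull_mem {n : ℕ} (hn : 2 ≤ n) {l : List ℕ} (hl : stackSort l = uL n (n - 2)) (μ : ℕ → ℝ)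
    (h0 : μ 0 = 1) (h1 : μ n = 0) (hm : ∀ p < n, μ (p + 1) ≤ μ p) :
    (fun i : Fin n => ((i : ℕ) + 1 : ℝ) + ((i : ℕ) + 1) * μ (i + 1) - (i : ℕ) * μ i -
      μ (n - 1) * (((uL n (n - 1)).getD i 0 : ℝ) - l.getD i 0)) ∈
      convexHull ℝ (Set.range fun j : ℕ => pt n (stackSort^[j] l)) := by
  have hs : ∑ m ∈ Finset.range n, (μ m - μ (m + 1)) = 1 := by rw [Finset.sum_range_sub', h0, h1]; simp
  have := (convex_convexHull ℝ (Set.range fun j : ℕ => pt n (stackSort^[j] l))).sum_mem
    (t := Finset.range n) (w := fun m => μ m - μ (m + 1))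
    (z := fun m => pt n (stackSort^[n - 1 - m] l))
    (fun m hm' => sub_nonneg.2 (hm m (Finset.mem_range.1 hm'))) hs
    (fun m _ => subset_convexHull _ _ ⟨_, rfl⟩)
  convert this using 1
  funext i
  have hi := i.2
  have e1 : ∀ m ∈ Finset.range n, (μ m - μ (m + 1)) * pt n (stackSort^[n - 1 - m] l) i =
      (μ m - μ (m + 1)) * ((i : ℕ) + 1) + (μ (max m (i + 1)) - μ (max (m + 1) (i + 1))) -
        (if m = i then (μ m - μ (m + 1)) * m else 0) -
        (if m = n - 1 then μ m * (((uL n (n - 1)).getD i 0 : ℝ) - l.getD i 0) else 0) := by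
    intro m hm'
    have hm2 := Finset.mem_range.1 hm'
    have e2 : (μ m - μ (m + 1)) * ((uL n m).getD i 0 : ℝ) =
        (μ m - μ (m + 1)) * ((i : ℕ) + 1) + (μ (max m (i + 1)) - μ (max (m + 1) (i + 1))) -
        (if m = i then (μ m - μ (m + 1)) * m else 0) := by
      rw [uL_get hi]
      rcases lt_trichotomy (i : ℕ) m with h | h | h
      · rw [if_pos h, if_neg h.ne', max_eq_left (by omega), max_eq_left (by omega)]
        push_cast; ring
      · rw [if_neg h.not_lt, if_pos h, if_pos h.symm, max_eq_right (by omega),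
          max_eq_right (by omega), ← h]
        push_cast; ring
      · rw [if_neg h.not_gt, if_neg h.ne', if_neg h.ne, max_eq_right (by omega),
          max_eq_right (by omega)]
        push_cast; ring
    rw [← e2]
    by_cases hmn : m = n - 1
    · rw [if_pos hmn, hmn, show n - 1 + 1 = n by omega, h1, Nat.sub_self]
      simp only [pt, Function.iterate_zero, id]; ring
    · rw [if_neg hmn, show n - 1 - m = n - 2 - m + 1 by omega, iter_uL hl _ (by omega),
        show n - 2 - (n - 2 - m) = m by omega]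
      simp [pt]
  simp only [Finset.sum_apply, Pi.smul_apply, smul_eq_mul]
  rw [Finset.sum_congr rfl e1, Finset.sum_sub_distrib, Finset.sum_sub_distrib,
    Finset.sum_add_distrib, ← Finset.sum_mul, hs, Finset.sum_range_sub' (fun m => μ (max m (i + 1))),
    Finset.sum_ite_eq', Finset.sum_ite_eq', if_pos (Finset.mem_range.2 hi),
    if_pos (Finset.mem_range.2 (by omega)), max_eq_right (by omega), max_eq_left (by omega), h1]
  ring

theorem sort_prefix (A C : List ℕ) (h : ∀ a ∈ A, ∀ c ∈ C, a < c) :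
    stackSort (A ++ C) = stackSort A ++ stackSort C := by
  cases C with
  | nil => simp [stackSort, stackGo]
  | cons x C =>
    rw [stackSort, go_split _ _ _ _ (fun a ha => h a ha x mem_cons_self) (by simp)]
    simp [stackSort, stackGo]

/-- The permutations used for the lower bound. -/
noncomputable def piL (n k : ℕ) (R : Finset ℕ) : List ℕ :=
  range' 2 (k - 1) ++ ((Finset.Icc (k + 1) (n - 1) \ R).sort (· ≥ ·) ++ R.sort (· ≤ ·)) ++ [n, 1]

theorem mid_perm {n k : ℕ} {R : Finset ℕ} (hR : R ⊆ Finset.Icc (k + 1) (n - 1)) :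
    (Finset.Icc (k + 1) (n - 1) \ R).sort (· ≥ ·) ++ R.sort (· ≤ ·) ~ range' (k + 1) (n - 1 - k) := by
  refine (perm_ext_iff_of_nodup ?_ nodup_range').2 fun a => ?_
  · refine nodup_append.2 ⟨Finset.sort_nodup _ _, Finset.sort_nodup _ _, fun a ha b hb hab => ?_⟩
    rw [Finset.mem_sort] at ha hb
    exact (Finset.mem_sdiff.1 ha).2 (hab ▸ hb)
  · have := @hR a
    simp only [mem_append, Finset.mem_sort, Finset.mem_sdiff, Finset.mem_Icc, mem_range'_1] at *
    by_cases ha : a ∈ R
    · have := this ha; simp [ha]; omega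
    · simp [ha]; omega

theorem left_perm {n k : ℕ} (hk : 1 ≤ k) (hn : k + 1 ≤ n) {R : Finset ℕ}
    (hR : R ⊆ Finset.Icc (k + 1) (n - 1)) :
    range' 2 (k - 1) ++ ((Finset.Icc (k + 1) (n - 1) \ R).sort (· ≥ ·) ++ R.sort (· ≤ ·)) ~
      range' 2 (n - 2) := by
  refine ((mid_perm hR).append_left _).trans (Perm.of_eq ?_)
  rw [show k + 1 = 2 + (k - 1) by omega, range'_append_1]
  congr 1; omega

theorem piL_perm {n k : ℕ} (hk : 1 ≤ k) (hn : k + 1 ≤ n) {R : Finset ℕ}
    (hR : R ⊆ Finset.Icc (k + 1) (n - 1)) : piL n k R ~ range' 1 n := by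
  refine ((left_perm hk hn hR).append_right _).trans ?_
  obtain ⟨d, rfl⟩ : ∃ d, n = d + 2 := ⟨n - 2, by omega⟩
  rw [Nat.add_sub_cancel, range'_succ, range'_concat, Nat.one_mul, Nat.add_comm 2 d]
  simpa using perm_append_singleton 1 (range' 2 d ++ [d + 2])

theorem sort_piL {n k : ℕ} (hk : 1 ≤ k) (hn : k + 1 ≤ n) {R : Finset ℕ}
    (hR : R ⊆ Finset.Icc (k + 1) (n - 1)) : stackSort (piL n k R) = uL n (n - 2) := by
  have hp := left_perm hk hn hR
  rw [piL, sort_max _ [1] n (fun a ha => by have := mem_range'_1.1 (hp.subset ha); omega)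
    (by simp; omega)]
  have h1 : stackSort (range' 2 (k - 1) ++ ((Finset.Icc (k + 1) (n - 1) \ R).sort (· ≥ ·) ++
      R.sort (· ≤ ·))) = range' 2 (n - 2) := by
    have hlt : ∀ a ∈ range' 2 (k - 1), ∀ c ∈ (Finset.Icc (k + 1) (n - 1) \ R).sort (· ≥ ·) ++
        R.sort (· ≤ ·), a < c := fun a ha c hc => by
      have := mem_range'_1.1 ha
      have := mem_range'_1.1 ((mid_perm hR).subset hc)
      omega
    refine Perm.eq_of_pairwise (fun _ _ _ _ h1 h2 => le_antisymm h1 h2) ?_ (range'_sorted _ _)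
      ((sort_perm _).trans hp)
    rw [sort_prefix _ _ hlt, sort_range', pairwise_append]
    refine ⟨range'_sorted _ _, ?_, fun a ha c hc => (hlt a ha c ((sort_perm _).subset hc)).le⟩
    rw [stackSort, go_desc _ _ _ (Finset.pairwise_sort _ _) (by simp)]
    refine go_sorted _ _ (Finset.pairwise_sort _ _) ?_
    rw [append_nil, pairwise_reverse]
    exact Finset.pairwise_sort _ _
  rw [h1, uL, show n - (n - 2) - 1 = 1 by omega, show n - 2 + 2 = n by omega]
  simp [stackSort, stackGo]

theorem sum_getD (l : List ℕ) : ∑ i ∈ Finset.range l.length, l.getD i 0 = l.sum := by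
  induction l with
  | nil => simp
  | cons x l ih => rw [length_cons, Finset.sum_range_succ', sum_cons, ← ih]; simp [Nat.add_comm]

theorem uL_perm {n : ℕ} (hn : 1 ≤ n) : uL n (n - 1) ~ range' 1 n := by
  obtain ⟨d, rfl⟩ : ∃ d, n = d + 1 := ⟨n - 1, by omega⟩
  rw [uL, range'_succ]
  simp

end Pool.Agent.Lib.MP_cb3ce3_co
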